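import Mathlib
import Pool.Agent.R359.SharpTwo

/-!
# MP_d71e54_al, Q1 (yes)

There is a relational Fraïssé structure `M` with strong amalgamation (language: one quaternary
relation symbol, universe `ℕ`) that admits no structurally sharply 2-transitive action of any
group.  The definitions `RightAct`, `RightAct.StructSharp`, `SameQF`, `StrongAmalg` are at the
beginning of `Pool/Agent/R359/SharpTwo.lean`; ultrahomogeneity is Mathlib's
`FirstOrder.Language.IsUltrahomogeneous`.
-/

open FirstOrder Pool.Agent.R359

namespace Pool.Agent.Results.MP_d71e54_al.NoSharpTwo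

universe u

theorem result : ∃ (L : FirstOrder.Language.{0, 0}) (M : Type) (_ : L.Structure M),
    L.IsRelational ∧ Countable M ∧ Infinite M ∧ L.IsUltrahomogeneous M ∧ StrongAmalg L M ∧
      ∀ (G : Type u) [Group G] (A : RightAct L M G), ¬ A.StructSharp 2 :=
  ⟨SharpTwo.L4, ℕ, SharpTwo.instN, inferInstance, inferInstance, inferInstance,
    SharpTwo.ultrahom, SharpTwo.strong, fun _ _ A => SharpTwo.no_sharp A⟩

end Pool.Agent.Results.MP_d71e54_al.NoSharpTwo
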